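import Pool.Graph.R_seed8.H239R2.Cover.BelowSix

set_option autoImplicit false

/-!
Circular flows and the packing number of the three-edge cuts.
-/

namespace Pool.Agent.H584.CF

open Finset
open Pool.Agent.H239R2.Cover (circ_flow_bridgeless bdry bdry_apply ecut mem_ecut sum_bdry_cut
  bdry_eq_zero exists_circ_flow)

set_option linter.unusedSectionVars false

variable {V E : Type} [Fintype V] [DecidableEq V] [Fintype E] [DecidableEq E]

/-- At most `t` pairwise disjoint vertex sets have pairwise different boundaries with exactly three
edges. -/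
def AtMost (src dst : E → V) (t : ℕ) : Prop :=
  ∀ X : Fin (t + 1) → Finset V, (∀ i j, i ≠ j → Disjoint (X i) (X j)) →
    (∀ i j, i ≠ j → ecut src dst (X i) ≠ ecut src dst (X j)) →
    ∃ i, (ecut src dst (X i)).card ≠ 3

/-- The graph obtained from the partition `π` by identifying the vertices of each class has no cut
with less than three edges. -/
def Quot3 (src dst : E → V) {k : ℕ} (π : V → Fin k) : Prop :=
  ∀ I : Finset (Fin k), I.Nonempty → I ≠ univ →
    3 ≤ (ecut src dst (univ.filter (fun v => π v ∈ I))).card

/-- Twice the number of crossing edges is the sum of the sizes of the boundaries. -/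
theorem sum_cuts (src dst : E → V) (k : ℕ) (π : V → Fin k) :
    ∑ i : Fin k, (ecut src dst (univ.filter (fun v => π v = i))).card
      = 2 * (univ.filter (fun e => π (src e) ≠ π (dst e))).card := by
  classical
  simp only [ecut, Finset.card_filter]
  rw [Finset.sum_comm, Finset.mul_sum]
  refine Finset.sum_congr rfl fun e _ => ?_
  simp only [Finset.mem_filter, Finset.mem_univ, true_and]
  by_cases he : π (src e) = π (dst e)
  · rw [if_neg (by simpa using he)]
    rw [he]
    simp
  · rw [if_pos he]
    have h3 : ∀ i : Fin k, (if ¬ (π (src e) = i ↔ π (dst e) = i) then 1 else 0 : ℕ)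
        = (if π (src e) = i then 1 else 0) + (if π (dst e) = i then 1 else 0) := by
      intro i
      by_cases h4 : π (src e) = i
      · have h5 : ¬ π (dst e) = i := fun h6 => he (h4.trans h6.symm)
        simp [h4, h5]
      · by_cases h5 : π (dst e) = i
        · simp [h4, h5]
        · simp [h4, h5]
    rw [Finset.sum_congr rfl (fun i _ => h3 i), Finset.sum_add_distrib]
    simp

theorem class_cut (src dst : E → V) {k : ℕ} (π : V → Fin k) (hk : 2 ≤ k)
    (h1 : Quot3 src dst π) (i : Fin k) :
    3 ≤ (ecut src dst (univ.filter (fun v => π v = i))).card := by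
  have h2 := h1 {i} (Finset.singleton_nonempty i) (by
    intro hcon
    have h3 := congrArg Finset.card hcon
    rw [Finset.card_singleton, Finset.card_univ, Fintype.card_fin] at h3
    omega)
  simpa only [Finset.mem_singleton] using h2

theorem cross3 (src dst : E → V) {k : ℕ} (π : V → Fin k) (hk : 2 ≤ k)
    (h1 : Quot3 src dst π) :
    3 * k ≤ 2 * (univ.filter (fun e => π (src e) ≠ π (dst e))).card := by
  rw [← sum_cuts src dst k π]
  calc 3 * k = ∑ _i : Fin k, 3 := by simp [mul_comm]
    _ ≤ _ := Finset.sum_le_sum fun i _ => class_cut src dst π hk h1 i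

theorem class_ne (src dst : E → V) {k : ℕ} (π : V → Fin k) (hk : 3 ≤ k)
    (h1 : Quot3 src dst π) (i j : Fin k) (hij : i ≠ j) :
    ecut src dst (univ.filter (fun v => π v = i)) ≠ ecut src dst (univ.filter (fun v => π v = j)) := by
  intro heq
  have h2 := h1 {i, j} ⟨i, by simp⟩ (by
    intro hcon
    have h3 := congrArg Finset.card hcon
    rw [Finset.card_pair hij, Finset.card_univ, Fintype.card_fin] at h3
    omega)
  obtain ⟨e, he⟩ := Finset.card_pos.mp (by omega :
    0 < (ecut src dst (univ.filter (fun v => π v ∈ ({i, j} : Finset (Fin k))))).card)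
  have h3 : e ∈ ecut src dst (univ.filter (fun v => π v = i)) ↔
      e ∈ ecut src dst (univ.filter (fun v => π v = j)) := by rw [heq]
  rw [mem_ecut] at he h3
  rw [mem_ecut] at h3
  simp only [Finset.mem_filter, Finset.mem_univ, true_and, Finset.mem_insert,
    Finset.mem_singleton] at he h3
  by_cases a1 : π (src e) = i
  · have a2 : ¬ π (src e) = j := fun h => hij (a1.symm.trans h)
    by_cases b1 : π (dst e) = i
    · simp [a1, b1] at he
    · by_cases b2 : π (dst e) = j
      · simp [a1, b2] at he
      · simp [a1, b1, b2, hij] at h3
  · by_cases a2 : π (src e) = j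
    · by_cases b1 : π (dst e) = i
      · simp [a2, b1] at he
      · by_cases b2 : π (dst e) = j
        · simp [a2, b2] at he
        · simp [a2, b1, b2, hij.symm] at h3
    · by_cases b1 : π (dst e) = i
      · simp [a1, a2, b1, hij] at h3
      · by_cases b2 : π (dst e) = j
        · simp [a1, a2, b2, hij.symm] at h3
        · simp [a1, a2, b1, b2] at he

/-- The lower bound for the number of crossing edges. -/
theorem cross4 (src dst : E → V) (t : ℕ) (hT : AtMost src dst t)
    {k : ℕ} (π : V → Fin k) (hk : 3 ≤ k) (h1 : Quot3 src dst π) :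
    4 * k ≤ 2 * (univ.filter (fun e => π (src e) ≠ π (dst e))).card + t := by
  classical
  set c : Fin k → ℕ := fun i => (ecut src dst (univ.filter (fun v => π v = i))).card with hc
  have h2 : ∑ i, c i = 2 * (univ.filter (fun e => π (src e) ≠ π (dst e))).card :=
    sum_cuts src dst k π
  -- the classes with three boundary edges
  have h3 : (univ.filter (fun i : Fin k => c i = 3)).card ≤ t := by
    by_contra hcon
    push Not at hcon
    obtain ⟨I, hI, hIc⟩ := Finset.exists_subset_card_eq (s := univ.filter (fun i : Fin k => c i = 3))
      (n := t + 1) hcon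
    let φ : Fin (t + 1) ≃ I := (Finset.equivFinOfCardEq hIc).symm
    obtain ⟨i, hi⟩ := hT (fun i => univ.filter (fun v => π v = (φ i : Fin k))) (by
      intro i j hij
      rw [Finset.disjoint_left]
      intro v hv hv'
      rw [Finset.mem_filter] at hv hv'
      exact hij (φ.injective (Subtype.ext (hv.2.symm.trans hv'.2)))) (by
      intro i j hij
      apply class_ne src dst π hk h1
      intro hcon
      exact hij (φ.injective (Subtype.ext hcon)))
    apply hi
    have := hI (φ i).2
    rw [Finset.mem_filter] at this
    exact this.2
  rw [← h2]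
  have h4 : ∀ i : Fin k, 4 ≤ c i + (if c i = 3 then 1 else 0) := by
    intro i
    have : 3 ≤ c i := class_cut src dst π (by omega) h1 i
    split_ifs with h5
    · omega
    · omega
  calc 4 * k = ∑ _i : Fin k, 4 := by simp [mul_comm]
    _ ≤ ∑ i, (c i + (if c i = 3 then 1 else 0)) := Finset.sum_le_sum fun i _ => h4 i
    _ = ∑ i, c i + (univ.filter (fun i : Fin k => c i = 3)).card := by
      rw [Finset.sum_add_distrib, Finset.card_filter]
    _ ≤ _ := by omega

/-- Every partition of the vertex set into `k` classes whose quotient is 3-edge-connected has at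
least `(a / b) (k - 1)` edges between different classes. -/
def Part (src dst : E → V) (a b : ℕ) : Prop :=
  ∀ (k : ℕ) (π : V → Fin k), Function.Surjective π → Quot3 src dst π →
    a * k ≤ b * (univ.filter (fun e => π (src e) ≠ π (dst e))).card + a

/-- The case in which all cuts have at least three edges. -/
theorem circ_flow_of_part (src dst : E → V) (a b : ℕ) (hb : 0 < b) (hab : b < a)
    (hP : Part src dst a b)
    (h : ∀ X : Finset V, X.Nonempty → X ≠ univ → 3 ≤ (ecut src dst X).card) :
    ∃ f : E → ℝ, (∀ e, 1 ≤ |f e| ∧ |f e| ≤ ((a : ℝ) + b) / (a - b)) ∧ bdry ℝ src dst f = 0 := by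
  classical
  apply exists_circ_flow src dst a b hb hab
  intro k π hπ
  apply hP k π hπ
  intro I hI hIu
  apply h
  · obtain ⟨i, hi⟩ := hI
    obtain ⟨v, hv⟩ := hπ i
    exact ⟨v, by simp [hv, hi]⟩
  · intro hcon
    apply hIu
    rw [Finset.eq_univ_iff_forall]
    intro i
    obtain ⟨v, hv⟩ := hπ i
    have : v ∈ univ.filter (fun v => π v ∈ I) := by rw [hcon]; exact Finset.mem_univ _
    rw [Finset.mem_filter] at this
    exact hv ▸ this.2

theorem one_le_ratio (a b : ℕ) (hab : b < a) : 1 ≤ ((a : ℝ) + b) / (a - b) := by
  have h : (b:ℝ) < a := by exact_mod_cast hab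
  have h' : (0:ℝ) ≤ b := Nat.cast_nonneg b
  rw [le_div_iff₀ (by linarith)]
  linarith

/-- **Circular flows and three-edge cuts.** -/
theorem main (a b : ℕ) (hb : 0 < b) (hab : b < a) (N : ℕ) :
    ∀ (V E : Type) [Fintype V] [DecidableEq V] [Fintype E]
    [DecidableEq E] (src dst : E → V), Fintype.card V = N + 1 →
    (∀ X : Finset V, (ecut src dst X).card ≠ 1) → Part src dst a b →
    ∃ f : E → ℝ, (∀ e, 1 ≤ |f e| ∧ |f e| ≤ ((a : ℝ) + b) / (a - b)) ∧ bdry ℝ src dst f = 0 := by
  induction N with
  | zero =>
    intro V E _ _ _ _ src dst hV hcut _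
    have hsub : Subsingleton V := by
      rw [← Fintype.card_le_one_iff_subsingleton]; omega
    refine ⟨fun _ => 1, fun e => ?_, ?_⟩
    · rw [abs_one]
      exact ⟨le_rfl, one_le_ratio a b hab⟩
    · ext v
      rw [bdry_apply]
      apply Finset.sum_eq_zero
      intro e _
      rw [Subsingleton.elim (src e) (dst e)]
      simp
  | succ N ih =>
    intro V E _ _ _ _ src dst hV hcut hT
    have hNR : (0:ℝ) ≤ N := Nat.cast_nonneg N
    by_cases h3 : ∀ X : Finset V, X.Nonempty → X ≠ univ → 3 ≤ (ecut src dst X).card
    · exact circ_flow_of_part src dst a b hb hab hT h3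
    · push Not at h3
      obtain ⟨X, hXne, hXu, hX3⟩ := h3
      have hX1 := hcut X
      -- the separated vertices
      obtain ⟨u, w, hu, hw, hcase⟩ : ∃ u w : V, u ∈ X ∧ w ∉ X ∧
          (ecut src dst X = ∅ ∨ ∃ e e' : E, e ≠ e' ∧ ecut src dst X = {e, e'} ∧
            ((src e = u ∧ dst e = w) ∨ (src e = w ∧ dst e = u))) := by
        have hcard : (ecut src dst X).card = 0 ∨ (ecut src dst X).card = 2 := by omega
        rcases hcard with h0 | h2
        · obtain ⟨u, hu⟩ := hXne
          obtain ⟨w, hw⟩ : ∃ w, w ∉ X := by
            by_contra hcon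
            push Not at hcon
            exact hXu (Finset.eq_univ_iff_forall.mpr hcon)
          exact ⟨u, w, hu, hw, Or.inl (Finset.card_eq_zero.mp h0)⟩
        · obtain ⟨e, e', hne, hee⟩ := Finset.card_eq_two.mp h2
          have he : e ∈ ecut src dst X := by rw [hee]; simp
          rw [mem_ecut] at he
          by_cases hs : src e ∈ X
          · have hd : dst e ∉ X := fun hd => he ⟨fun _ => hd, fun _ => hs⟩
            exact ⟨src e, dst e, hs, hd, Or.inr ⟨e, e', hne, hee, Or.inl ⟨rfl, rfl⟩⟩⟩
          · have hd : dst e ∈ X := by
              by_contra hd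
              exact he ⟨fun h => absurd h hs, fun h => absurd h hd⟩
            exact ⟨dst e, src e, hd, hs, Or.inr ⟨e, e', hne, hee, Or.inr ⟨rfl, rfl⟩⟩⟩
      have huw : u ≠ w := fun h => hw (h ▸ hu)
      -- identify `w` with `u`
      let σ : V → {v : V // v ≠ w} := fun v => if h : v = w then ⟨u, huw⟩ else ⟨v, h⟩
      have hσ : ∀ v z : V, (hz : z ≠ w) → z ≠ u → (σ v = ⟨z, hz⟩ ↔ v = z) := by
        intro v z hz hzu
        simp only [σ]
        by_cases hv : v = w
        · rw [dif_pos hv]
          constructor
          · intro h; exact absurd (congrArg Subtype.val h).symm hzu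
          · intro h; exact absurd (h.symm.trans hv) hz
        · rw [dif_neg hv]
          exact ⟨fun h => congrArg Subtype.val h, fun h => Subtype.ext h⟩
      have hcard' : Fintype.card {v : V // v ≠ w} = N + 1 := by
        rw [Fintype.card_subtype_compl, hV]
        simp
      have hpull : ∀ X' : Finset {v : V // v ≠ w},
          ecut (fun e => σ (src e)) (fun e => σ (dst e)) X'
              = ecut src dst (univ.filter (fun v => σ v ∈ X')) := by
        intro X'
        ext e
        rw [mem_ecut, mem_ecut]
        simp
      obtain ⟨f', hf', hf'0⟩ := ih {v : V // v ≠ w} E (fun e => σ (src e)) (fun e => σ (dst e))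
        hcard' (by
          intro X'
          rw [hpull]
          exact hcut _) (by
          intro k π hπ hc
          have hσs : Function.Surjective σ := by
            intro z
            refine ⟨z.1, ?_⟩
            simp only [σ]
            rw [dif_neg z.2]
          have hcl : ∀ I : Finset (Fin k),
              (univ.filter (fun v => σ v ∈ univ.filter (fun z => π z ∈ I)))
              = univ.filter (fun v => (π ∘ σ) v ∈ I) := by
            intro I
            ext v
            simp
          exact hT k (π ∘ σ) (hπ.comp hσs) (fun I hI hIu => by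
            have h1 := hc I hI hIu
            rw [hpull, hcl] at h1
            exact h1))
      have hne0 : ∀ v, v ≠ u → v ≠ w → bdry ℝ src dst f' v = 0 := by
        intro v hvu hvw
        have h1 := congrFun hf'0 ⟨v, hvw⟩
        rw [bdry_apply, Pi.zero_apply] at h1
        rw [bdry_apply]
        refine Eq.trans ?_ h1
        refine Finset.sum_congr rfl fun e _ => ?_
        simp only [hσ _ v hvw hvu]
      rcases hcase with hempty | ⟨e, e', hne, hee, hends⟩
      · refine ⟨f', fun e => ⟨(hf' e).1, (hf' e).2⟩, ?_⟩
        apply bdry_eq_zero src dst f' X u w hu hw _ hne0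
        rw [sum_bdry_cut, hempty, Finset.sum_empty]
      · -- the sign of an edge across the cut
        let s : E → ℝ := fun e => (if src e ∈ X then 1 else 0) - (if dst e ∈ X then 1 else 0)
        have hs : ∀ e ∈ ecut src dst X, s e = 1 ∨ s e = -1 := by
          intro e he
          rw [mem_ecut] at he
          simp only [s]
          by_cases h1 : src e ∈ X
          · have h2 : dst e ∉ X := fun hd => he ⟨fun _ => hd, fun _ => h1⟩
            simp [h1, h2]
          · have h2 : dst e ∈ X := by
              by_contra hd
              exact he ⟨fun h => absurd h h1, fun h => absurd h hd⟩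
            simp [h1, h2]
        have hse := hs e (by rw [hee]; simp)
        have hse' := hs e' (by rw [hee]; simp)
        set c : ℝ := - (s e * s e' * f' e') with hc
        refine ⟨Function.update f' e c, fun g => ?_, ?_⟩
        · by_cases hg : g = e
          · rw [hg, Function.update_self]
            have h1 : |c| = |f' e'| := by
              rw [hc]
              rcases hse with h | h <;> rcases hse' with h' | h' <;> rw [h, h'] <;> simp
            rw [h1]
            exact ⟨(hf' e').1, (hf' e').2⟩
          · rw [Function.update_of_ne hg]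
            exact ⟨(hf' g).1, (hf' g).2⟩
        · apply bdry_eq_zero src dst _ X u w hu hw
          · rw [sum_bdry_cut, hee, Finset.sum_pair hne, Function.update_self,
              Function.update_of_ne hne.symm]
            change c * s e + f' e' * s e' = 0
            rw [hc]
            rcases hse with h | h <;> rcases hse' with h' | h' <;> rw [h, h'] <;> ring
          · intro v hvu hvw
            rw [← hne0 v hvu hvw, bdry_apply, bdry_apply]
            refine Finset.sum_congr rfl fun g _ => ?_
            by_cases hg : g = e
            · have h1 : src g ≠ v := by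
                rw [hg]
                rcases hends with ⟨h, _⟩ | ⟨h, _⟩ <;> rw [h]
                · exact hvu.symm
                · exact hvw.symm
              have h2 : dst g ≠ v := by
                rw [hg]
                rcases hends with ⟨_, h⟩ | ⟨_, h⟩ <;> rw [h]
                · exact hvw.symm
                · exact hvu.symm
              rw [if_neg h1, if_neg h2]
              simp
            · rw [Function.update_of_ne hg]

/-- At most `t` pairwise disjoint sets have three boundary edges, `t ≥ 4`. -/
theorem part_of_few (src dst : E → V) (s : ℕ) (hT : AtMost src dst (s + 4)) :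
    Part src dst (3 * (s + 4)) (2 * (s + 3)) := by
  intro k π hπ hc
  set x := (univ.filter (fun e => π (src e) ≠ π (dst e))).card with hx
  rcases Nat.lt_or_ge k 2 with hk | hk
  · have hk' : k ≤ 1 := by omega
    nlinarith
  have h1 : 3 * k ≤ 2 * x := cross3 src dst π hk hc
  rcases Nat.lt_or_ge k 3 with hk3 | hk3
  · have hk2 : k = 2 := by omega
    subst hk2
    nlinarith
  have h2 : 4 * k ≤ 2 * x + (s + 4) := cross4 src dst (s + 4) hT π hk3 hc
  rcases Nat.le_total k (s + 4) with h3 | h3
  · nlinarith
  · nlinarith

/-- At most three pairwise disjoint sets have three boundary edges. -/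
theorem part_of_few' (src dst : E → V) (N : ℕ) (hT : AtMost src dst 3)
    (hN : Fintype.card V = N + 1) : Part src dst (4 * N + 2) (2 * N) := by
  intro k π hπ hc
  have h4 : k ≤ N + 1 := by
    have := Fintype.card_le_of_surjective π hπ
    rw [hN, Fintype.card_fin] at this
    exact this
  set x := (univ.filter (fun e => π (src e) ≠ π (dst e))).card with hx
  rcases Nat.lt_or_ge k 2 with hk | hk
  · have hk' : k ≤ 1 := by omega
    nlinarith
  have h1 : 3 * k ≤ 2 * x := cross3 src dst π hk hc
  rcases Nat.lt_or_ge k 3 with hk3 | hk3
  · have hk2 : k = 2 := by omega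
    subst hk2
    have h5 : 3 ≤ x := by omega
    nlinarith
  have h2 : 4 * k ≤ 2 * x + 3 := cross4 src dst 3 hT π hk3 hc
  have h3 : 4 * k ≤ 2 * x + 2 := by omega
  have h6 := Nat.mul_le_mul_left N h3
  nlinarith

/-- The number of the edges at `v`; loops count twice. -/
def deg (src dst : E → V) (v : V) : ℕ :=
  (univ.filter (fun e => src e = v)).card + (univ.filter (fun e => dst e = v)).card

theorem sum_deg (src dst : E → V) (X : Finset V) :
    ∑ v ∈ X, deg src dst v
      = (ecut src dst X).card + 2 * (univ.filter (fun e => src e ∈ X ∧ dst e ∈ X)).card := by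
  classical
  have h1 : ∀ g : E → V, ∑ v ∈ X, (univ.filter (fun e => g e = v)).card
      = ∑ e, (if g e ∈ X then 1 else 0 : ℕ) := by
    intro g
    simp only [Finset.card_filter]
    rw [Finset.sum_comm]
    refine Finset.sum_congr rfl fun e _ => ?_
    rw [Finset.sum_ite_eq]
  unfold deg
  rw [Finset.sum_add_distrib, h1, h1, ecut, Finset.card_filter, Finset.card_filter,
    Finset.mul_sum, ← Finset.sum_add_distrib, ← Finset.sum_add_distrib]
  refine Finset.sum_congr rfl fun e _ => ?_
  by_cases hs : src e ∈ X <;> by_cases hd : dst e ∈ X <;> simp [hs, hd]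

/-- Disjoint sets with three boundary edges contain different vertices of odd degree. -/
theorem atMost_of_odd (src dst : E → V) (t : ℕ)
    (h : (univ.filter (fun v => Odd (deg src dst v))).card ≤ t) : AtMost src dst t := by
  classical
  intro X hX _
  by_contra hcon
  push Not at hcon
  have h1 : ∀ i, ∃ v ∈ X i, Odd (deg src dst v) := by
    intro i
    by_contra hno
    push Not at hno
    have h2 := sum_deg src dst (X i)
    rw [hcon i] at h2
    have h3 : Even (∑ v ∈ X i, deg src dst v) :=
      Finset.even_sum _ fun v hv => Nat.not_odd_iff_even.mp (hno v hv)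
    rw [h2] at h3
    have h4 : ¬ Even (3 + 2 * (univ.filter (fun e => src e ∈ X i ∧ dst e ∈ X i)).card) := by
      rw [Nat.not_even_iff_odd]
      exact ⟨1 + _, by ring⟩
    exact h4 h3
  choose v hv hodd using h1
  have hinj : Function.Injective v := by
    intro i j hij
    by_contra hne
    exact Finset.disjoint_left.mp (hX i j hne) (hv i) (hij ▸ hv j)
  have h2 : t + 1 ≤ (univ.filter (fun v => Odd (deg src dst v))).card := by
    calc t + 1 = (univ.image v).card := by
          rw [Finset.card_image_of_injective _ hinj]; simp
      _ ≤ _ := Finset.card_le_card (by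
          intro w hw
          obtain ⟨i, _, rfl⟩ := Finset.mem_image.mp hw
          rw [Finset.mem_filter]
          exact ⟨Finset.mem_univ _, hodd i⟩)
  omega

end Pool.Agent.H584.CF
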